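import Pool.Agent.Helper56.Finsler.Model
open scoped ContDiff
open MeasureTheory

namespace Pool.Agent.Helper56.Finsler

/-- `∂Gⁱ/∂yᵏ` -/
noncomputable def NM (x y : Vec 4) : Matrix (Fin 4) (Fin 4) ℝ :=
  !![y 1, y 0, 0, 0;
     -(Real.exp (2 * x 1) * y 0), 0, 0, 0;
     0, 0, y 3, y 2;
     0, 0, -(Real.exp (2 * x 3) * y 2), 0]

theorem pd_GM_y (x y : Vec 4) (i k : Fin 4) : pd k (fun y' => GM x y' i) y = NM x y i k := by
  fin_cases i <;> fin_cases k <;> simp [pd, GM, NM, Function.update]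
  all_goals try ring

theorem pd_GM_x (x y : Vec 4) (i k : Fin 4) : pd k (fun x' => GM x' y i) x =
    !![0, 0, 0, 0; 0, -(Real.exp (2 * x 1) * y 0 ^ 2), 0, 0; 0, 0, 0, 0;
      0, 0, 0, -(Real.exp (2 * x 3) * y 2 ^ 2)] i k := by
  fin_cases i <;> fin_cases k <;> simp [pd, GM, Function.update, (hasDerivAt_exp2 _).deriv]
  all_goals try ring

theorem pd_NM_x (x y : Vec 4) (i k j : Fin 4) : pd j (fun x' => NM x' y i k) x =
    if i = 1 ∧ k = 0 ∧ j = 1 then -(2 * Real.exp (2 * x 1) * y 0) else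
    if i = 3 ∧ k = 2 ∧ j = 3 then -(2 * Real.exp (2 * x 3) * y 2) else 0 := by
  fin_cases i <;> fin_cases k <;> fin_cases j <;>
    simp [pd, NM, Function.update, (hasDerivAt_exp2 _).deriv]

theorem pd_NM_y (x y : Vec 4) (i k j : Fin 4) : pd j (fun y' => NM x y' i k) y =
    if i = 0 ∧ k = 0 ∧ j = 1 then 1 else
    if i = 0 ∧ k = 1 ∧ j = 0 then 1 else
    if i = 1 ∧ k = 0 ∧ j = 0 then -Real.exp (2 * x 1) else
    if i = 2 ∧ k = 2 ∧ j = 3 then 1 else
    if i = 2 ∧ k = 3 ∧ j = 2 then 1 else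
    if i = 3 ∧ k = 2 ∧ j = 2 then -Real.exp (2 * x 3) else 0 := by
  fin_cases i <;> fin_cases k <;> fin_cases j <;>
    simp [pd, NM, Function.update]

theorem riem_eq (x : Vec 4) {y : Vec 4} (hy : y ≠ 0) : riem FF x y = RM x y := by
  ext i k
  unfold riem
  rw [Matrix.of_apply]
  have a1 : ∀ (i k : Fin 4) (x' : Vec 4), pd k (fun y' => spray FF x' y' i) y = NM x' y i k := by
    intro i k x'
    rw [← pd_GM_y]
    exact pd_congr_ne hy (fun z hz => by rw [spray_eq x' hz])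
  have a1' : ∀ (i k : Fin 4) (z : Vec 4), z ≠ 0 → pd k (fun y' => spray FF x y' i) z = NM x z i k := by
    intro i k z hz
    rw [← pd_GM_y]
    exact pd_congr_ne hz (fun z hz => by rw [spray_eq x hz])
  have a2 : pd k (fun x' => spray FF x' y i) x = pd k (fun x' => GM x' y i) x := by
    congr 1
    funext x'
    rw [spray_eq x' hy]
  have a3 : ∀ j, pd j (fun x' => pd k (fun y' => spray FF x' y' i) y) x =
      pd j (fun x' => NM x' y i k) x := by
    intro j
    congr 1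
    funext x'
    exact a1 i k x'
  have a4 : ∀ j, pd j (fun z => pd k (fun y' => spray FF x y' i) z) y =
      pd j (fun z => NM x z i k) y := by
    intro j
    exact pd_congr_ne hy (fun z hz => a1' i k z hz)
  rw [a2]
  simp only [a4, a1, spray_eq x hy, pd_GM_x, pd_NM_x, pd_NM_y]
  fin_cases i <;> fin_cases k <;> simp [Fin.sum_univ_four, NM, GM, RM] <;> ring

end Pool.Agent.Helper56.Finsler
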