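import Mathlib

/-!
Finsler metrics on the smooth manifold `ℝⁿ` (one global chart): fundamental tensor, spray,
Riemann curvature, flag curvature, Ricci scalar, distortion, S-curvature.
-/

open scoped ContDiff
open MeasureTheory

namespace Pool.Agent.Helper56.Finsler

/-- The coordinate space `ℝⁿ`; tangent vectors of the manifold `ℝⁿ` are also elements of it. -/
abbrev Vec (n : ℕ) := Fin n → ℝ

variable {n : ℕ}

/-- The partial derivative `∂f/∂xᵏ` at `x`. -/
noncomputable def pd (k : Fin n) (f : Vec n → ℝ) (x : Vec n) : ℝ :=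
  deriv (fun s : ℝ => f (Function.update x k s)) (x k)

/-- The matrix `g_ij(x,y) = ½ ∂²F²/∂yⁱ∂yʲ` of the fundamental tensor `g_y`. -/
noncomputable def fundMat (F : Vec n → Vec n → ℝ) (x y : Vec n) : Matrix (Fin n) (Fin n) ℝ :=
  Matrix.of fun i j => (1 / 2) * pd i (fun z => pd j (fun w => F x w ^ 2) z) y

/-- The fundamental tensor `g_y(u,v)` at the point `x`. -/
noncomputable def fund (F : Vec n → Vec n → ℝ) (x y u v : Vec n) : ℝ :=
  u ⬝ᵥ (fundMat F x y).mulVec v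

/-- `F` is a Finsler metric on the manifold `ℝⁿ`: nonnegative, smooth off the zero section,
positively homogeneous of degree one in `y`, with positive definite fundamental tensor. -/
structure IsFinsler (F : Vec n → Vec n → ℝ) : Prop where
  nonneg : ∀ x y, 0 ≤ F x y
  smooth : ContDiffOn ℝ ∞ (fun p : Vec n × Vec n => F p.1 p.2) {p | p.2 ≠ 0}
  homog : ∀ (c : ℝ) (x y : Vec n), 0 ≤ c → F x (c • y) = c * F x y
  posDef : ∀ x y, y ≠ 0 → (fundMat F x y).PosDef

/-- `F` is Riemannian: `F(y) = √h(y,y)` for a field `h` of symmetric positive definite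
bilinear forms. -/
def IsRiemannian (F : Vec n → Vec n → ℝ) : Prop :=
  ∃ h : Vec n → Matrix (Fin n) (Fin n) ℝ,
    (∀ x, (h x).PosDef) ∧ ∀ x y, F x y = Real.sqrt (y ⬝ᵥ (h x).mulVec y)

/-- `φ` is an isometry of `F`: a diffeomorphism whose differential preserves `F`. -/
structure IsIsometry (F : Vec n → Vec n → ℝ) (φ : Vec n ≃ Vec n) : Prop where
  smooth : ContDiff ℝ ∞ φ
  smooth_symm : ContDiff ℝ ∞ φ.symm
  preserves : ∀ x y, F (φ x) (fderiv ℝ φ x y) = F x y

/-- Homogeneous: the isometries act transitively. -/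
def IsHomogeneous (F : Vec n → Vec n → ℝ) : Prop :=
  ∀ p q : Vec n, ∃ φ : Vec n ≃ Vec n, IsIsometry F φ ∧ φ p = q

/-- The spray (geodesic) coefficients
`Gⁱ = ¼ gⁱˡ ( yᵏ ∂²F²/∂xᵏ∂yˡ - ∂F²/∂xˡ )`. -/
noncomputable def spray (F : Vec n → Vec n → ℝ) (x y : Vec n) : Vec n :=
  (1 / 4 : ℝ) • ((fundMat F x y)⁻¹).mulVec (fun l =>
    (∑ k, y k * pd k (fun x' => pd l (fun w => F x' w ^ 2) y) x) - pd l (fun x' => F x' y ^ 2) x)

/-- The Riemann curvature
`Rⁱₖ = 2 ∂Gⁱ/∂xᵏ - yʲ ∂²Gⁱ/∂xʲ∂yᵏ + 2 Gʲ ∂²Gⁱ/∂yʲ∂yᵏ - ∂Gⁱ/∂yʲ ∂Gʲ/∂yᵏ`. -/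
noncomputable def riem (F : Vec n → Vec n → ℝ) (x y : Vec n) : Matrix (Fin n) (Fin n) ℝ :=
  Matrix.of fun i k =>
    2 * pd k (fun x' => spray F x' y i) x
      - ∑ j, y j * pd j (fun x' => pd k (fun y' => spray F x' y' i) y) x
      + 2 * ∑ j, spray F x y j * pd j (fun z => pd k (fun y' => spray F x y' i) z) y
      - ∑ j, pd j (fun y' => spray F x y' i) y * pd k (fun y' => spray F x y' j) y

/-- The flag curvature `K(y, span{y,u}) = g_y(R_y u, u) / (g_y(y,y) g_y(u,u) - g_y(y,u)²)`. -/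
noncomputable def flagCurv (F : Vec n → Vec n → ℝ) (x y u : Vec n) : ℝ :=
  fund F x y ((riem F x y).mulVec u) u
    / (fund F x y y y * fund F x y u u - fund F x y y u ^ 2)

/-- `e₁,…,eₙ₋₁` is a `g_y`-orthonormal basis of the `g_y`-orthogonal complement of `y`. -/
def IsFrame (F : Vec n → Vec n → ℝ) (x y : Vec n) (e : Fin (n - 1) → Vec n) : Prop :=
  (∀ i j, fund F x y (e i) (e j) = if i = j then 1 else 0) ∧ ∀ i, fund F x y y (e i) = 0

/-- The Ricci scalar `Ric(y) = F(y)² ∑ᵢ K(y, span{y,eᵢ})` computed with the frame `e`. -/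
noncomputable def ricciScalar (F : Vec n → Vec n → ℝ) (x y : Vec n)
    (e : Fin (n - 1) → Vec n) : ℝ :=
  F x y ^ 2 * ∑ i, flagCurv F x y (e i)

/-- Negative Ricci scalar: `Ric(y) < 0` for all `y ≠ 0` (frames exist, and every frame gives a
negative value). -/
def NegativeRicci (F : Vec n → Vec n → ℝ) : Prop :=
  ∀ x y, y ≠ 0 → (∃ e, IsFrame F x y e) ∧ ∀ e, IsFrame F x y e → ricciScalar F x y e < 0

/-- The density `σ(x)` of the Busemann-Hausdorff volume form:
`vol(Bⁿ) / vol{y : F(x,y) < 1}`. -/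
noncomputable def bhDensity (F : Vec n → Vec n → ℝ) (x : Vec n) : ℝ :=
  (volume {y : Vec n | ∑ i, y i ^ 2 < 1}).toReal / (volume {y : Vec n | F x y < 1}).toReal

/-- The distortion `τ(x,y) = log ( √det g_ij(x,y) / σ(x) )`. -/
noncomputable def distortion (F : Vec n → Vec n → ℝ) (x y : Vec n) : ℝ :=
  Real.log (Real.sqrt (fundMat F x y).det / bhDensity F x)

/-- `γ` is, on `(-ε, ε)`, a geodesic with `γ(0) = x` and `γ'(0) = y`:
`γ'' + 2G(γ,γ') = 0`. -/
def IsGeodesic (F : Vec n → Vec n → ℝ) (x y : Vec n) (ε : ℝ) (γ : ℝ → Vec n) : Prop :=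
  0 < ε ∧ γ 0 = x ∧ deriv γ 0 = y ∧
    ∀ t ∈ Set.Ioo (-ε) ε, DifferentiableAt ℝ γ t ∧
      HasDerivAt (deriv γ) (-(2 : ℝ) • spray F (γ t) (deriv γ t)) t

/-- The S-curvature vanishes identically: for every `x` and `y ≠ 0` there is a geodesic with
initial velocity `y`, and for each such geodesic `γ` the derivative of `τ(γ,γ')` at `0` is `0`. -/
def SCurvatureVanishes (F : Vec n → Vec n → ℝ) : Prop :=
  ∀ x y, y ≠ 0 → (∃ ε γ, IsGeodesic F x y ε γ) ∧
    ∀ ε γ, IsGeodesic F x y ε γ →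
      HasDerivAt (fun t => distortion F (γ t) (deriv γ t)) 0 0

end Pool.Agent.Helper56.Finsler
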