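import Pool.Agent.Helper56.Finsler.Curv
open scoped ContDiff
open MeasureTheory
open scoped MatrixOrder Matrix.Norms.L2Operator

namespace Pool.Agent.Helper56.Finsler

/-- trace formula in a `g`-orthonormal basis -/
theorem trace_frame {n : ℕ} (g R : Matrix (Fin (n + 1)) (Fin (n + 1)) ℝ) (b : Fin (n + 1) → Vec (n + 1))
    (hb : ∀ i j, b i ⬝ᵥ g.mulVec (b j) = if i = j then 1 else 0) :
    R.trace = ∑ j, b j ⬝ᵥ g.mulVec (R.mulVec (b j)) := by
  set B : Matrix (Fin (n + 1)) (Fin (n + 1)) ℝ := Matrix.of fun i j => b j i with hB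
  have h1 : ((B.transpose * g) * B) = 1 := by
    ext i j
    have := hb i j
    rw [Matrix.one_apply, ← this]
    simp only [Matrix.mul_apply, hB, Matrix.transpose_apply, Matrix.of_apply, dotProduct, Matrix.mulVec,
      Finset.sum_mul, Finset.mul_sum]
    rw [Finset.sum_comm]
    apply Finset.sum_congr rfl; intro a _
    apply Finset.sum_congr rfl; intro c _
    ring
  have h2 : B * (B.transpose * g) = 1 := mul_eq_one_comm.1 h1
  calc R.trace = (R * (B * (B.transpose * g))).trace := by rw [h2, mul_one]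
    _ = ((B.transpose * g) * (R * B)).trace := by rw [← Matrix.mul_assoc, Matrix.trace_mul_comm]
    _ = ∑ j, b j ⬝ᵥ g.mulVec (R.mulVec (b j)) := by
      unfold Matrix.trace
      apply Finset.sum_congr rfl
      intro j _
      rw [Matrix.diag_apply, Matrix.mul_assoc]
      simp only [Matrix.mul_apply, hB, Matrix.transpose_apply, Matrix.of_apply, dotProduct, Matrix.mulVec]

/-- existence of frames -/
theorem exists_frame {n : ℕ} (g : Matrix (Fin (n + 1)) (Fin (n + 1)) ℝ) (hg : g.PosDef)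
    (y : Vec (n + 1)) (hy : y ≠ 0) : ∃ e : Fin n → Vec (n + 1),
      (∀ i j, e i ⬝ᵥ g.mulVec (e j) = if i = j then 1 else 0) ∧ ∀ i, y ⬝ᵥ g.mulVec (e i) = 0 := by
  obtain ⟨B, hB⟩ := CStarAlgebra.nonneg_iff_eq_star_mul_self.mp hg.posSemidef.nonneg
  have hBt : g = B.transpose * B := by rw [hB]; rfl
  have hdet : B.det ≠ 0 := by
    intro h
    have := hg.det_pos
    rw [hBt, Matrix.det_mul, h, mul_zero] at this
    exact lt_irrefl _ this
  have hu : IsUnit B.det := isUnit_iff_ne_zero.2 hdet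
  have hq : ∀ u v : Vec (n + 1), u ⬝ᵥ g.mulVec v = B.mulVec u ⬝ᵥ B.mulVec v := by
    intro u v
    rw [hBt, ← Matrix.mulVec_mulVec, Matrix.dotProduct_mulVec, Matrix.vecMul_transpose]
  have hBy : B.mulVec y ≠ 0 := by
    intro h
    apply hy
    have : (B⁻¹).mulVec (B.mulVec y) = y := by
      rw [Matrix.mulVec_mulVec, Matrix.nonsing_inv_mul _ hu, Matrix.one_mulVec]
    rw [← this, h, Matrix.mulVec_zero]
  set w : EuclideanSpace ℝ (Fin (n + 1)) := WithLp.toLp 2 (B.mulVec y) with hw
  have hw0 : w ≠ 0 := by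
    intro h
    apply hBy
    have := congrArg WithLp.ofLp h
    simpa [hw] using this
  set u : EuclideanSpace ℝ (Fin (n + 1)) := (‖w‖⁻¹ : ℝ) • w with hudef
  have hun : ‖u‖ = 1 := by
    rw [hudef, norm_smul, norm_inv, norm_norm, inv_mul_cancel₀ (norm_ne_zero_iff.2 hw0)]
  have horth : Orthonormal ℝ (({0} : Set (Fin (n + 1))).domRestrict (fun _ => u)) := by
    constructor
    · intro i; exact hun
    · intro i j hij
      exact absurd (Subsingleton.elim i j) hij
  obtain ⟨b, hb⟩ := horth.exists_orthonormalBasis_extension_of_card_eq (by simp)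
  have hb0 : b 0 = u := hb 0 (by simp)
  refine ⟨fun i => (B⁻¹).mulVec (WithLp.ofLp (b i.succ)), ?_, ?_⟩
  · intro i j
    rw [hq]
    simp only [Matrix.mulVec_mulVec, Matrix.mul_nonsing_inv _ hu, Matrix.one_mulVec]
    have h := b.inner_eq_ite i.succ j.succ
    rw [EuclideanSpace.inner_eq_star_dotProduct] at h
    simp only [Fin.succ_inj] at h
    rw [← h]
    simp [dotProduct_comm]
  · intro i
    rw [hq]
    simp only [Matrix.mulVec_mulVec, Matrix.mul_nonsing_inv _ hu, Matrix.one_mulVec]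
    have h := b.inner_eq_ite 0 i.succ
    rw [hb0, hudef, inner_smul_left, EuclideanSpace.inner_eq_star_dotProduct] at h
    have hne : (0 : Fin (n + 1)) ≠ i.succ := (Fin.succ_ne_zero i).symm
    rw [if_neg hne] at h
    have h2 : ‖w‖⁻¹ ≠ 0 := inv_ne_zero (norm_ne_zero_iff.2 hw0)
    simp only [conj_trivial, mul_eq_zero, h2, false_or] at h
    rw [dotProduct_comm]
    simpa [hw] using h

end Pool.Agent.Helper56.Finsler
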