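import Pool.Agent.Helper56.Finsler.Frame
open scoped ContDiff
open MeasureTheory

namespace Pool.Agent.Helper56.Finsler

theorem fund_self (x : Vec 4) {y : Vec 4} (hy : y ≠ 0) : fund FF x y y y = FF x y ^ 2 := by
  unfold fund
  rw [fundMat_eq x hy, quad_gM, FF_sq]
  have hr := er_pos x hy
  have hsq := er_sq x y
  have A : cov x y 0 * y 0 + cov x y 1 * y 1 = es x y := by simp [cov, es]; ring
  have B : cov x y 2 * y 2 + cov x y 3 * y 3 = et x y := by simp [cov, et]; ring
  rw [A, B]
  have hz : ca x y * es x y ^ 2 + 2 * cb x y * es x y * et x y + cc x y * et x y ^ 2 = 0 := by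
    unfold ca cb cc
    ring
  rw [hz]
  have h3 : (es x y ^ 2 + et x y ^ 2) / er x y = er x y := by
    rw [← hsq]; field_simp
  unfold cp cq
  calc (1 + es x y / er x y) * es x y + (1 + et x y / er x y) * et x y + 0
      = es x y + et x y + (es x y ^ 2 + et x y ^ 2) / er x y := by ring
    _ = _ := by rw [h3]

theorem FF_pos (x : Vec 4) {y : Vec 4} (hy : y ≠ 0) : 0 < FF x y := by
  unfold FF
  apply Real.sqrt_pos.2
  have h1 := er_pos x hy
  have h2 := es_nonneg x y
  have h3 := et_nonneg x y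
  linarith

theorem RM_self (x y : Vec 4) : (RM x y).mulVec y = 0 := by
  ext i
  fin_cases i <;> simp [RM, Matrix.mulVec, dotProduct, Fin.sum_univ_four] <;> ring

theorem RM_trace (x y : Vec 4) : (RM x y).trace = -(es x y + et x y) := by
  simp [RM, Matrix.trace, Fin.sum_univ_four, es, et]; ring

theorem gM_symm (x y u v : Vec 4) : u ⬝ᵥ (gM x y).mulVec v = v ⬝ᵥ (gM x y).mulVec u := by
  have h : (gM x y).transpose = gM x y := by
    have := (gM_posDef x y).isHermitian
    simpa [Matrix.IsHermitian] using this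
  rw [Matrix.dotProduct_mulVec, ← Matrix.mulVec_transpose, h, dotProduct_comm]

theorem ricci_eq (x : Vec 4) {y : Vec 4} (hy : y ≠ 0) (e : Fin (4 - 1) → Vec 4)
    (he : IsFrame FF x y e) : ricciScalar FF x y e = -(es x y + et x y) := by
  obtain ⟨he1, he2⟩ := he
  have hF := FF_pos x hy
  have hself := fund_self x hy
  unfold fund at he1 he2 hself
  rw [fundMat_eq x hy] at he1 he2 hself
  set b : Fin 4 → Vec 4 := Fin.cons ((FF x y)⁻¹ • y) e with hb
  have hbo : ∀ i j, b i ⬝ᵥ (gM x y).mulVec (b j) = if i = j then 1 else 0 := by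
    intro i j
    refine Fin.cases ?_ (fun i => ?_) i <;> refine Fin.cases ?_ (fun j => ?_) j
    · simp only [hb, Fin.cons_zero, if_true]
      rw [smul_dotProduct, Matrix.mulVec_smul, dotProduct_smul, hself]
      simp only [smul_eq_mul]
      field_simp
    · simp only [hb, Fin.cons_zero, Fin.cons_succ]
      rw [smul_dotProduct, he2 j]
      simp [(Fin.succ_ne_zero j).symm]
    · simp only [hb, Fin.cons_zero, Fin.cons_succ]
      rw [gM_symm, smul_dotProduct, he2 i]
      simp
    · simp only [hb, Fin.cons_succ]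
      have := he1 i j
      rw [this]
      simp [Fin.succ_inj]
  have htr := trace_frame (n := 3) (gM x y) (RM x y) b hbo
  rw [RM_trace, Fin.sum_univ_succ] at htr
  simp only [hb, Fin.cons_zero, Fin.cons_succ] at htr
  rw [Matrix.mulVec_smul, RM_self] at htr
  simp only [smul_zero, Matrix.mulVec_zero, dotProduct_zero, zero_add] at htr
  unfold ricciScalar
  rw [htr, Finset.mul_sum]
  apply Finset.sum_congr rfl
  intro i _
  unfold flagCurv fund
  rw [fundMat_eq x hy, riem_eq x hy, hself, he2 i, he1 i i, gM_symm x y _ (e i)]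
  simp only [if_true]
  field_simp
  ring

theorem negativeRicci : NegativeRicci FF := by
  intro x y hy
  constructor
  · obtain ⟨e, h1, h2⟩ := exists_frame (n := 3) (gM x y) (gM_posDef x y) y hy
    refine ⟨e, ?_, ?_⟩
    · intro i j
      unfold fund
      rw [fundMat_eq x hy]
      exact h1 i j
    · intro i
      unfold fund
      rw [fundMat_eq x hy]
      exact h2 i
  · intro e he
    rw [ricci_eq x hy e he]
    have := es_et_pos x hy
    linarith

/-! Finsler -/

theorem es_smul (c : ℝ) (x y : Vec 4) : es x (c • y) = c ^ 2 * es x y := by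
  simp [es]; ring

theorem et_smul (c : ℝ) (x y : Vec 4) : et x (c • y) = c ^ 2 * et x y := by
  simp [et]; ring

theorem er_smul (c : ℝ) (x y : Vec 4) : er x (c • y) = c ^ 2 * er x y := by
  unfold er
  rw [es_smul, et_smul]
  have : (c ^ 2 * es x y) ^ 2 + (c ^ 2 * et x y) ^ 2 = (c ^ 2) ^ 2 * (es x y ^ 2 + et x y ^ 2) := by ring
  rw [this, Real.sqrt_mul (by positivity), Real.sqrt_sq (by positivity)]

theorem FF_smul (c : ℝ) (x y : Vec 4) (hc : 0 ≤ c) : FF x (c • y) = c * FF x y := by
  unfold FF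
  rw [es_smul, et_smul, er_smul]
  have : c ^ 2 * es x y + c ^ 2 * et x y + c ^ 2 * er x y = c ^ 2 * (es x y + et x y + er x y) := by ring
  rw [this, Real.sqrt_mul (by positivity), Real.sqrt_sq hc]

theorem contDiff_es : ContDiff ℝ ∞ (fun p : Vec 4 × Vec 4 => es p.1 p.2) := by
  unfold es
  fun_prop

theorem contDiff_et : ContDiff ℝ ∞ (fun p : Vec 4 × Vec 4 => et p.1 p.2) := by
  unfold et
  fun_prop

theorem isFinsler : IsFinsler FF where
  nonneg x y := Real.sqrt_nonneg _
  smooth := by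
    have h1 : ContDiffOn ℝ ∞ (fun p : Vec 4 × Vec 4 => er p.1 p.2) {p | p.2 ≠ 0} := by
      unfold er
      apply ContDiffOn.sqrt
      · exact ((contDiff_es.pow 2).add (contDiff_et.pow 2)).contDiffOn
      · intro p hp
        exact (hr_pos p.1 hp).ne'
    unfold FF
    apply ContDiffOn.sqrt
    · exact (contDiff_es.add contDiff_et).contDiffOn.add h1
    · intro p hp
      have := er_pos p.1 hp
      have h2 := es_nonneg p.1 p.2
      have h3 := et_nonneg p.1 p.2
      have : 0 < es p.1 p.2 + et p.1 p.2 + er p.1 p.2 := by linarith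
      exact this.ne'
  homog c x y hc := FF_smul c x y hc
  posDef x y hy := by rw [fundMat_eq x hy]; exact gM_posDef x y

/-! not Riemannian -/

theorem not_isRiemannian : ¬ IsRiemannian FF := by
  rintro ⟨h, hpd, hF⟩
  -- parallelogram identity for `F²` at the origin
  set q : Vec 4 → ℝ := fun y => y ⬝ᵥ (h 0).mulVec y with hq
  have hFq : ∀ y, FF 0 y ^ 2 = q y := by
    intro y
    rw [hF 0 y, Real.sq_sqrt]
    exact (hpd 0).posSemidef.dotProduct_mulVec_nonneg y |>.trans_eq (by simp [hq])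
  have hpar : ∀ u v, q (u + v) + q (u - v) = 2 * q u + 2 * q v := by
    intro u v
    simp only [hq, Matrix.mulVec_add, Matrix.mulVec_sub, add_dotProduct, dotProduct_add,
      sub_dotProduct, dotProduct_sub]
    ring
  have h1 := hpar ![1, 0, 0, 0] ![0, 0, 1, 0]
  rw [← hFq, ← hFq, ← hFq, ← hFq, FF_sq, FF_sq, FF_sq, FF_sq] at h1
  simp [es, et, er] at h1
  have h2 : Real.sqrt (1 + 1) ^ 2 = 2 := by rw [Real.sq_sqrt] <;> norm_num
  have h3 : Real.sqrt (1 + 1) = 2 := by linarith
  rw [h3] at h2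
  norm_num at h2

/-! homogeneous -/

/-- the isometry `(x₀,x₁,x₂,x₃) ↦ (e^{-a}x₀+b, x₁+a, e^{-c}x₂+d, x₃+c)` -/
noncomputable def iso (a b c d : ℝ) : Vec 4 ≃ Vec 4 where
  toFun x := ![Real.exp (-a) * x 0 + b, x 1 + a, Real.exp (-c) * x 2 + d, x 3 + c]
  invFun x := ![Real.exp a * (x 0 - b), x 1 - a, Real.exp c * (x 2 - d), x 3 - c]
  left_inv x := by
    funext i
    fin_cases i <;> simp [← mul_assoc, ← Real.exp_add]
  right_inv x := by
    funext i
    fin_cases i <;> simp [← mul_assoc, ← Real.exp_add]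

theorem iso_hasFDerivAt (a b c d : ℝ) (x y : Vec 4) :
    fderiv ℝ (iso a b c d) x y = ![Real.exp (-a) * y 0, y 1, Real.exp (-c) * y 2, y 3] := by
  have h : HasFDerivAt (iso a b c d : Vec 4 → Vec 4)
      (ContinuousLinearMap.pi
        ![Real.exp (-a) • (ContinuousLinearMap.proj (R := ℝ) (φ := fun _ : Fin 4 => ℝ) 0),
        (ContinuousLinearMap.proj (R := ℝ) (φ := fun _ : Fin 4 => ℝ) 1),
        Real.exp (-c) • (ContinuousLinearMap.proj (R := ℝ) (φ := fun _ : Fin 4 => ℝ) 2),
        (ContinuousLinearMap.proj (R := ℝ) (φ := fun _ : Fin 4 => ℝ) 3)]) x := by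
    rw [hasFDerivAt_pi']
    intro i
    fin_cases i
    · have := ((ContinuousLinearMap.proj (R := ℝ) (φ := fun _ : Fin 4 => ℝ) 0).hasFDerivAt (x := x)).const_smul (Real.exp (-a)) |>.add_const b
      exact this
    · have := ((ContinuousLinearMap.proj (R := ℝ) (φ := fun _ : Fin 4 => ℝ) 1).hasFDerivAt (x := x)).add_const a
      exact this
    · have := ((ContinuousLinearMap.proj (R := ℝ) (φ := fun _ : Fin 4 => ℝ) 2).hasFDerivAt (x := x)).const_smul (Real.exp (-c)) |>.add_const d
      exact this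
    · have := ((ContinuousLinearMap.proj (R := ℝ) (φ := fun _ : Fin 4 => ℝ) 3).hasFDerivAt (x := x)).add_const c
      exact this
  rw [h.fderiv]
  funext i
  fin_cases i <;> simp

theorem isHomogeneous : IsHomogeneous FF := by
  intro p q
  refine ⟨iso (q 1 - p 1) (q 0 - Real.exp (-(q 1 - p 1)) * p 0) (q 3 - p 3)
    (q 2 - Real.exp (-(q 3 - p 3)) * p 2), ⟨?_, ?_, ?_⟩, ?_⟩
  · rw [contDiff_pi]
    intro i
    fin_cases i <;> simp [iso] <;> fun_prop
  · rw [contDiff_pi]
    intro i
    fin_cases i <;> simp [iso] <;> fun_prop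
  · intro x y
    rw [iso_hasFDerivAt]
    have h1 : es ((iso (q 1 - p 1) (q 0 - Real.exp (-(q 1 - p 1)) * p 0) (q 3 - p 3)
      (q 2 - Real.exp (-(q 3 - p 3)) * p 2)) x) ![Real.exp (-(q 1 - p 1)) * y 0, y 1, Real.exp (-(q 3 - p 3)) * y 2, y 3] = es x y := by
      simp only [es, iso, Equiv.coe_fn_mk, Matrix.cons_val_zero, Matrix.cons_val_one, Matrix.cons_val]
      rw [mul_pow, ← mul_assoc, ← Real.exp_nat_mul, ← Real.exp_add]
      congr 3
      push_cast; ring
    have h2 : et ((iso (q 1 - p 1) (q 0 - Real.exp (-(q 1 - p 1)) * p 0) (q 3 - p 3)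
      (q 2 - Real.exp (-(q 3 - p 3)) * p 2)) x) ![Real.exp (-(q 1 - p 1)) * y 0, y 1, Real.exp (-(q 3 - p 3)) * y 2, y 3] = et x y := by
      simp only [et, iso, Equiv.coe_fn_mk, Matrix.cons_val_zero, Matrix.cons_val_one, Matrix.cons_val]
      rw [mul_pow, ← mul_assoc, ← Real.exp_nat_mul, ← Real.exp_add]
      congr 3
      push_cast; ring
    unfold FF er
    rw [h1, h2]
  · funext i
    fin_cases i <;> simp [iso]

end Pool.Agent.Helper56.Finsler
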