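import Pool.Agent.Helper56.Finsler.Main1
open scoped ContDiff
open MeasureTheory

namespace Pool.Agent.Helper56.Finsler

theorem det4_aux (P Q a b c u0 u1 u2 u3 E1 E2 : ℝ) :
    (!![P * E1 + a * (u0 * u0), a * (u0 * u1), b * (u0 * u2), b * (u0 * u3);
       a * (u1 * u0), P + a * (u1 * u1), b * (u1 * u2), b * (u1 * u3);
       b * (u2 * u0), b * (u2 * u1), Q * E2 + c * (u2 * u2), c * (u2 * u3);
       b * (u3 * u0), b * (u3 * u1), c * (u3 * u2), Q + c * (u3 * u3)] :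
        Matrix (Fin 4) (Fin 4) ℝ).det =
      P * Q * (P * Q * E1 * E2 + P * c * (u2 ^ 2 * E1 + u3 ^ 2 * E1 * E2) +
        Q * a * (u0 ^ 2 * E2 + u1 ^ 2 * E1 * E2) +
        (a * c - b ^ 2) * ((u0 ^ 2 + u1 ^ 2 * E1) * (u2 ^ 2 + u3 ^ 2 * E2))) := by
  rw [Matrix.det_succ_row_zero]
  simp [Fin.sum_univ_four, Matrix.det_fin_three, Matrix.submatrix, Fin.succAbove]
  ring

/-- the function `Ψ` -/
noncomputable def Psi (s t : ℝ) : ℝ :=
  (1 + s / Real.sqrt (s ^ 2 + t ^ 2)) * (1 + t / Real.sqrt (s ^ 2 + t ^ 2)) *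
    ((1 + s / Real.sqrt (s ^ 2 + t ^ 2)) * (1 + t / Real.sqrt (s ^ 2 + t ^ 2)) +
      (1 + s / Real.sqrt (s ^ 2 + t ^ 2)) * (2 * s ^ 2 / Real.sqrt (s ^ 2 + t ^ 2) ^ 3) * t +
      (1 + t / Real.sqrt (s ^ 2 + t ^ 2)) * (2 * t ^ 2 / Real.sqrt (s ^ 2 + t ^ 2) ^ 3) * s)

theorem det_eq (x : Vec 4) {y : Vec 4} (hy : y ≠ 0) :
    (fundMat FF x y).det = (Real.exp (x 1 + x 3)) ^ 2 * Psi (es x y) (et x y) := by
  rw [fundMat_eq x hy]
  unfold gM
  rw [det4_aux]
  have h1 : ca x y * cc x y - cb x y ^ 2 = 0 := by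
    unfold ca cb cc; ring
  rw [h1]
  have hE : Real.exp (x 1 + x 3) ^ 2 = Real.exp (2 * x 1) * Real.exp (2 * x 3) := by
    rw [← Real.exp_add, ← Real.exp_nat_mul]
    congr 1; push_cast; ring
  rw [hE]
  have e1 : es x y = Real.exp (2 * x 1) * y 0 ^ 2 + y 1 ^ 2 := rfl
  have e2 : et x y = Real.exp (2 * x 3) * y 2 ^ 2 + y 3 ^ 2 := rfl
  have hP : Psi (es x y) (et x y) = cp x y * cq x y * (cp x y * cq x y + cp x y * cc x y * et x y +
      cq x y * ca x y * es x y) := by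
    unfold Psi cp cq ca cc er
    ring
  rw [hP]
  simp only [cov, Matrix.cons_val_zero, Matrix.cons_val_one, Matrix.cons_val]
  generalize cp x y = P
  generalize cq x y = Q
  generalize ca x y = a
  generalize cc x y = c
  rw [e1, e2]
  ring

theorem vol_eq (x : Vec 4) : volume {y : Vec 4 | FF x y < 1} =
    ENNReal.ofReal (Real.exp (x 1 + x 3))⁻¹ * volume {y : Vec 4 | FF 0 y < 1} := by
  set A : Matrix (Fin 4) (Fin 4) ℝ := Matrix.diagonal ![Real.exp (x 1), 1, Real.exp (x 3), 1] with hA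
  have hdet : LinearMap.det (Matrix.toLin' A) = Real.exp (x 1 + x 3) := by
    rw [LinearMap.det_toLin', hA, Matrix.det_diagonal, Fin.prod_univ_four]
    simp [Real.exp_add]
  have hpre : {y : Vec 4 | FF x y < 1} = (Matrix.toLin' A) ⁻¹' {y : Vec 4 | FF 0 y < 1} := by
    ext y
    simp only [Set.mem_ofPred_eq, Set.mem_preimage, Matrix.toLin'_apply]
    have hv : A.mulVec y = ![Real.exp (x 1) * y 0, y 1, Real.exp (x 3) * y 2, y 3] := by
      funext i
      rw [hA, Matrix.mulVec_diagonal]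
      fin_cases i <;> simp
    have h1 : es 0 (A.mulVec y) = es x y := by
      rw [hv]
      simp only [es, Matrix.cons_val_zero, Matrix.cons_val_one, Pi.zero_apply, mul_zero,
        Real.exp_zero, one_mul]
      rw [mul_pow, ← Real.exp_nat_mul]
      norm_num
    have h2 : et 0 (A.mulVec y) = et x y := by
      rw [hv]
      simp only [et, Matrix.cons_val, Pi.zero_apply, mul_zero,
        Real.exp_zero, one_mul]
      rw [mul_pow, ← Real.exp_nat_mul]
      norm_num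
    have h3 : FF 0 (A.mulVec y) = FF x y := by
      unfold FF er
      rw [h1, h2]
    rw [h3]
  rw [hpre, Measure.addHaar_preimage_linearMap volume (by rw [hdet]; exact (Real.exp_pos _).ne'), hdet,
    abs_of_pos (inv_pos.2 (Real.exp_pos _))]

theorem bh_eq (x : Vec 4) : bhDensity FF x = Real.exp (x 1 + x 3) * bhDensity FF 0 := by
  unfold bhDensity
  rw [vol_eq x, ENNReal.toReal_mul, ENNReal.toReal_ofReal (inv_nonneg.2 (Real.exp_pos _).le)]
  have := (Real.exp_pos (x 1 + x 3)).ne'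
  generalize (volume {y : Vec 4 | FF 0 y < 1}).toReal = V
  generalize (volume {y : Vec 4 | ∑ i, y i ^ 2 < 1}).toReal = W
  rw [div_mul_eq_div_div, div_inv_eq_mul]
  ring

theorem distortion_eq (x : Vec 4) {y : Vec 4} (hy : y ≠ 0) :
    distortion FF x y = Real.log (Real.sqrt (Psi (es x y) (et x y)) / bhDensity FF 0) := by
  unfold distortion
  rw [det_eq x hy, bh_eq x, Real.sqrt_mul (by positivity), Real.sqrt_sq (Real.exp_pos _).le]
  rw [mul_div_mul_left _ _ (Real.exp_pos _).ne']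

/-! geodesics -/

theorem exists_geodesic (x : Vec 4) {y : Vec 4} (hy : y ≠ 0) : ∃ ε γ, IsGeodesic FF x y ε γ := by
  set f : Vec 4 × Vec 4 → Vec 4 × Vec 4 := fun p => (p.2, -(2 : ℝ) • GM p.1 p.2) with hf
  have hsm : ContDiff ℝ 1 f := by
    rw [hf]
    apply contDiff_snd.prodMk
    apply ContDiff.const_smul
    rw [contDiff_pi]
    intro i
    fin_cases i <;> simp [GM] <;> fun_prop
  obtain ⟨α, h0, ε, hε, hα⟩ :=
    ContDiffAt.exists_forall_mem_closedBall_exists_eq_forall_mem_Ioo_hasDerivAt₀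
      (hsm.contDiffAt (x := (x, y))) 0
  simp only [zero_sub, zero_add] at hα
  have hc : ContinuousAt (fun t => (α t).2) 0 :=
    (continuous_snd.continuousAt).comp (hα 0 ⟨by linarith, hε⟩).continuousAt
  have hne : ∀ᶠ t in nhds (0 : ℝ), (α t).2 ≠ 0 := by
    apply hc.eventually_ne
    rw [h0]; exact hy
  obtain ⟨δ, hδ, hball⟩ := Metric.eventually_nhds_iff.1 hne
  have hd : ∀ t ∈ Set.Ioo (-ε) ε, HasDerivAt (fun s => (α s).1) (α t).2 t := by
    intro t ht
    exact ((ContinuousLinearMap.fst ℝ (Vec 4) (Vec 4)).hasFDerivAt (x := α t)).comp_hasDerivAt t (hα t ht)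
  have hd2 : ∀ t ∈ Set.Ioo (-ε) ε, HasDerivAt (fun s => (α s).2) (-(2 : ℝ) • GM (α t).1 (α t).2) t := by
    intro t ht
    exact ((ContinuousLinearMap.snd ℝ (Vec 4) (Vec 4)).hasFDerivAt (x := α t)).comp_hasDerivAt t (hα t ht)
  have hde : ∀ t ∈ Set.Ioo (-ε) ε, deriv (fun s => (α s).1) t = (α t).2 := fun t ht => (hd t ht).deriv
  refine ⟨min ε δ, fun s => (α s).1, lt_min hε hδ, by simp [h0], ?_, ?_⟩
  · rw [hde 0 ⟨by linarith, hε⟩, h0]
  · intro t ht
    have ht1 : t ∈ Set.Ioo (-ε) ε :=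
      ⟨lt_of_le_of_lt (neg_le_neg (min_le_left _ _)) ht.1, lt_of_lt_of_le ht.2 (min_le_left _ _)⟩
    have ht2 : (α t).2 ≠ 0 := by
      apply hball
      rw [Real.dist_eq, sub_zero, abs_lt]
      exact ⟨lt_of_le_of_lt (neg_le_neg (min_le_right _ _)) ht.1, lt_of_lt_of_le ht.2 (min_le_right _ _)⟩
    refine ⟨(hd t ht1).differentiableAt, ?_⟩
    rw [hde t ht1, spray_eq _ ht2]
    refine (hd2 t ht1).congr_of_eventuallyEq ?_
    filter_upwards [isOpen_Ioo.mem_nhds ht1] with s hs using hde s hs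

theorem energy_const {γ η : ℝ → Vec 4} {δ : ℝ}
    (h1 : ∀ t ∈ Set.Ioo (-δ) δ, HasDerivAt γ (η t) t)
    (h2 : ∀ t ∈ Set.Ioo (-δ) δ, HasDerivAt η (-(2 : ℝ) • GM (γ t) (η t)) t) :
    (∀ t ∈ Set.Ioo (-δ) δ, HasDerivAt (fun t => es (γ t) (η t)) 0 t) ∧
    (∀ t ∈ Set.Ioo (-δ) δ, HasDerivAt (fun t => et (γ t) (η t)) 0 t) := by
  constructor
  · intro t ht
    have g := fun i => (hasDerivAt_pi.1 (h1 t ht)) i
    have e := fun i => (hasDerivAt_pi.1 (h2 t ht)) i
    have h := (((g 1).const_mul 2).exp.mul ((e 0).pow 2)).add ((e 1).pow 2)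
    refine HasDerivAt.congr_deriv (f := fun t => es (γ t) (η t)) h ?_
    simp [GM]
    ring
  · intro t ht
    have g := fun i => (hasDerivAt_pi.1 (h1 t ht)) i
    have e := fun i => (hasDerivAt_pi.1 (h2 t ht)) i
    have h := (((g 3).const_mul 2).exp.mul ((e 2).pow 2)).add ((e 3).pow 2)
    refine HasDerivAt.congr_deriv (f := fun t => et (γ t) (η t)) h ?_
    simp [GM]
    ring

theorem const_of_deriv {f : ℝ → ℝ} {δ : ℝ} (hδ : 0 < δ)
    (h : ∀ t ∈ Set.Ioo (-δ) δ, HasDerivAt f 0 t) : ∀ t ∈ Set.Ioo (-δ) δ, f t = f 0 := by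
  intro t ht
  exact isOpen_Ioo.is_const_of_deriv_eq_zero isPreconnected_Ioo
    (fun s hs => (h s hs).differentiableAt.differentiableWithinAt)
    (fun s hs => (h s hs).deriv) ht ⟨by linarith, hδ⟩

theorem sCurvatureVanishes : SCurvatureVanishes FF := by
  intro x y hy
  refine ⟨exists_geodesic x hy, ?_⟩
  rintro ε γ ⟨hε, h0, h1, hg⟩
  have h00 : (0 : ℝ) ∈ Set.Ioo (-ε) ε := ⟨by linarith, hε⟩
  have hc : ContinuousAt (deriv γ) 0 := (hg 0 h00).2.continuousAt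
  have hne : ∀ᶠ t in nhds (0 : ℝ), deriv γ t ≠ 0 := by
    apply hc.eventually_ne
    rw [h1]; exact hy
  obtain ⟨δ, hδ, hball⟩ := Metric.eventually_nhds_iff.1 hne
  set ρ := min ε δ with hρ
  have hρ0 : 0 < ρ := lt_min hε hδ
  have hsub : ∀ t ∈ Set.Ioo (-ρ) ρ, t ∈ Set.Ioo (-ε) ε := fun t ht =>
    ⟨lt_of_le_of_lt (neg_le_neg (min_le_left _ _)) ht.1, lt_of_lt_of_le ht.2 (min_le_left _ _)⟩
  have hne' : ∀ t ∈ Set.Ioo (-ρ) ρ, deriv γ t ≠ 0 := by
    intro t ht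
    apply hball
    rw [Real.dist_eq, sub_zero, abs_lt]
    exact ⟨lt_of_le_of_lt (neg_le_neg (min_le_right _ _)) ht.1, lt_of_lt_of_le ht.2 (min_le_right _ _)⟩
  have hE := energy_const (γ := γ) (η := deriv γ) (δ := ρ)
    (fun t ht => (hg t (hsub t ht)).1.hasDerivAt)
    (fun t ht => by
      have := (hg t (hsub t ht)).2
      rwa [spray_eq _ (hne' t ht)] at this)
  have hs := const_of_deriv hρ0 hE.1
  have ht := const_of_deriv hρ0 hE.2
  have hconst : ∀ t ∈ Set.Ioo (-ρ) ρ, distortion FF (γ t) (deriv γ t) = distortion FF (γ 0) (deriv γ 0) := by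
    intro t htm
    rw [distortion_eq _ (hne' t htm), distortion_eq _ (hne' 0 ⟨by linarith, hρ0⟩), hs t htm, ht t htm]
  refine (hasDerivAt_const (0 : ℝ) (distortion FF (γ 0) (deriv γ 0))).congr_of_eventuallyEq ?_
  filter_upwards [isOpen_Ioo.mem_nhds (show (0 : ℝ) ∈ Set.Ioo (-ρ) ρ from ⟨by linarith, hρ0⟩)] with t ht
    using hconst t ht

end Pool.Agent.Helper56.Finsler
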