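import Pool.Agent.Helper56.Finsler.Defs

open scoped ContDiff
open MeasureTheory

namespace Pool.Agent.Helper56.Finsler

/-- first energy: `e^{2x₁} y₀² + y₁²` -/
noncomputable def es (x y : Vec 4) : ℝ := Real.exp (2 * x 1) * y 0 ^ 2 + y 1 ^ 2
/-- second energy: `e^{2x₃} y₂² + y₃²` -/
noncomputable def et (x y : Vec 4) : ℝ := Real.exp (2 * x 3) * y 2 ^ 2 + y 3 ^ 2
noncomputable def er (x y : Vec 4) : ℝ := Real.sqrt (es x y ^ 2 + et x y ^ 2)

/-- the Finsler metric on `H² × H²` -/
noncomputable def FF (x y : Vec 4) : ℝ := Real.sqrt (es x y + et x y + er x y)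

noncomputable def cp (x y : Vec 4) : ℝ := 1 + es x y / er x y
noncomputable def cq (x y : Vec 4) : ℝ := 1 + et x y / er x y
noncomputable def ca (x y : Vec 4) : ℝ := 2 * et x y ^ 2 / er x y ^ 3
noncomputable def cb (x y : Vec 4) : ℝ := -(2 * es x y * et x y / er x y ^ 3)
noncomputable def cc (x y : Vec 4) : ℝ := 2 * es x y ^ 2 / er x y ^ 3

/-- explicit gradient of `F²` in `y` -/
noncomputable def grad (x y : Vec 4) : Vec 4 :=
  ![2 * cp x y * (Real.exp (2 * x 1) * y 0), 2 * cp x y * y 1,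
    2 * cq x y * (Real.exp (2 * x 3) * y 2), 2 * cq x y * y 3]

/-- the covector `e` with entries `E₁y₀, y₁, E₂y₂, y₃` -/
noncomputable def cov (x y : Vec 4) : Vec 4 :=
  ![Real.exp (2 * x 1) * y 0, y 1, Real.exp (2 * x 3) * y 2, y 3]

/-- explicit fundamental matrix -/
noncomputable def gM (x y : Vec 4) : Matrix (Fin 4) (Fin 4) ℝ :=
  !![cp x y * Real.exp (2 * x 1) + ca x y * (cov x y 0 * cov x y 0), ca x y * (cov x y 0 * cov x y 1),
      cb x y * (cov x y 0 * cov x y 2), cb x y * (cov x y 0 * cov x y 3);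
     ca x y * (cov x y 1 * cov x y 0), cp x y + ca x y * (cov x y 1 * cov x y 1),
      cb x y * (cov x y 1 * cov x y 2), cb x y * (cov x y 1 * cov x y 3);
     cb x y * (cov x y 2 * cov x y 0), cb x y * (cov x y 2 * cov x y 1),
      cq x y * Real.exp (2 * x 3) + cc x y * (cov x y 2 * cov x y 2), cc x y * (cov x y 2 * cov x y 3);
     cb x y * (cov x y 3 * cov x y 0), cb x y * (cov x y 3 * cov x y 1),
      cc x y * (cov x y 3 * cov x y 2), cq x y + cc x y * (cov x y 3 * cov x y 3)]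

/-- explicit spray -/
noncomputable def GM (x y : Vec 4) : Vec 4 :=
  ![y 0 * y 1, -(1 / 2) * (Real.exp (2 * x 1) * y 0 ^ 2),
    y 2 * y 3, -(1 / 2) * (Real.exp (2 * x 3) * y 2 ^ 2)]

/-- explicit curvature -/
noncomputable def RM (x y : Vec 4) : Matrix (Fin 4) (Fin 4) ℝ :=
  !![-(y 1 ^ 2), y 0 * y 1, 0, 0;
     Real.exp (2 * x 1) * y 0 * y 1, -(Real.exp (2 * x 1) * y 0 ^ 2), 0, 0;
     0, 0, -(y 3 ^ 2), y 2 * y 3;
     0, 0, Real.exp (2 * x 3) * y 2 * y 3, -(Real.exp (2 * x 3) * y 2 ^ 2)]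

/-! basic facts -/

theorem es_nonneg (x y : Vec 4) : 0 ≤ es x y := by
  unfold es; positivity

theorem et_nonneg (x y : Vec 4) : 0 ≤ et x y := by
  unfold et; positivity

theorem es_et_pos (x : Vec 4) {y : Vec 4} (hy : y ≠ 0) : 0 < es x y + et x y := by
  by_contra h
  have h0 := es_nonneg x y
  have h1 := et_nonneg x y
  have hs : es x y = 0 := by linarith
  have ht : et x y = 0 := by linarith
  apply hy
  have e1 : 0 < Real.exp (2 * x 1) := Real.exp_pos _
  have e3 : 0 < Real.exp (2 * x 3) := Real.exp_pos _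
  unfold es at hs
  unfold et at ht
  have a1 : y 1 = 0 := by
    have : y 1 ^ 2 = 0 := by nlinarith [mul_nonneg e1.le (sq_nonneg (y 0)), sq_nonneg (y 1)]
    simpa using this
  have a3 : y 3 = 0 := by
    have : y 3 ^ 2 = 0 := by nlinarith [mul_nonneg e3.le (sq_nonneg (y 2)), sq_nonneg (y 3)]
    simpa using this
  have a0 : y 0 = 0 := by
    rw [a1] at hs
    have : Real.exp (2 * x 1) * y 0 ^ 2 = 0 := by linarith
    rcases mul_eq_zero.1 this with h | h
    · exact absurd h e1.ne'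
    · simpa using h
  have a2 : y 2 = 0 := by
    rw [a3] at ht
    have : Real.exp (2 * x 3) * y 2 ^ 2 = 0 := by linarith
    rcases mul_eq_zero.1 this with h | h
    · exact absurd h e3.ne'
    · simpa using h
  funext i
  fin_cases i <;> simp [a0, a1, a2, a3]

theorem er_pos (x : Vec 4) {y : Vec 4} (hy : y ≠ 0) : 0 < er x y := by
  have h := es_et_pos x hy
  have h0 := es_nonneg x y
  have h1 := et_nonneg x y
  apply Real.sqrt_pos.2
  nlinarith [mul_pos h h, mul_nonneg h0 h1]

theorem er_sq (x y : Vec 4) : er x y ^ 2 = es x y ^ 2 + et x y ^ 2 := by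
  unfold er
  rw [Real.sq_sqrt]
  positivity

theorem FF_sq (x y : Vec 4) : FF x y ^ 2 = es x y + et x y + er x y := by
  unfold FF
  rw [Real.sq_sqrt]
  have h0 := es_nonneg x y
  have h1 := et_nonneg x y
  have : 0 ≤ er x y := Real.sqrt_nonneg _
  linarith

/-! partial derivative API -/

theorem pd_congr {n : ℕ} {k : Fin n} {f g : Vec n → ℝ} {x : Vec n}
    (h : f =ᶠ[nhds x] g) : pd k f x = pd k g x := by
  unfold pd
  apply Filter.EventuallyEq.deriv_eq
  have hc : Filter.Tendsto (fun s : ℝ => Function.update x k s) (nhds (x k)) (nhds x) := by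
    have : Continuous (fun s : ℝ => Function.update x k s) := by
      fun_prop
    have h2 := this.tendsto (x k)
    simpa using h2
  exact hc.eventually h

theorem pd_congr_ne {n : ℕ} {k : Fin n} {f g : Vec n → ℝ} {y : Vec n} (hy : y ≠ 0)
    (h : ∀ z, z ≠ 0 → f z = g z) : pd k f y = pd k g y := by
  apply pd_congr
  filter_upwards [isOpen_ne.mem_nhds hy] with z hz using h z hz

/-- derivative of `P(s,t) = s+t+√(s²+t²)` -/
theorem hasDerivAt_P {s t : ℝ → ℝ} {s' t' u : ℝ} (hs : HasDerivAt s s' u) (ht : HasDerivAt t t' u)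
    (hr : 0 < s u ^ 2 + t u ^ 2) :
    HasDerivAt (fun v => s v + t v + Real.sqrt (s v ^ 2 + t v ^ 2))
      ((1 + s u / Real.sqrt (s u ^ 2 + t u ^ 2)) * s' + (1 + t u / Real.sqrt (s u ^ 2 + t u ^ 2)) * t') u := by
  have hne : Real.sqrt (s u ^ 2 + t u ^ 2) ≠ 0 := (Real.sqrt_pos.2 hr).ne'
  have h1 : HasDerivAt (fun v => s v + t v + Real.sqrt (s v ^ 2 + t v ^ 2))
      (s' + t' + ((2 : ℕ) * s u ^ (2 - 1) * s' + (2 : ℕ) * t u ^ (2 - 1) * t') /
        (2 * Real.sqrt (s u ^ 2 + t u ^ 2))) u :=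
    (hs.add ht).add (((hs.pow 2).add (ht.pow 2)).sqrt hr.ne')
  refine h1.congr_deriv ?_
  generalize Real.sqrt (s u ^ 2 + t u ^ 2) = r at *
  push_cast
  field_simp
  ring

/-- derivative of `1 + s/r` -/
theorem hasDerivAt_p {s t : ℝ → ℝ} {s' t' u : ℝ} (hs : HasDerivAt s s' u) (ht : HasDerivAt t t' u)
    (hr : 0 < s u ^ 2 + t u ^ 2) :
    HasDerivAt (fun v => 1 + s v / Real.sqrt (s v ^ 2 + t v ^ 2))
      (t u ^ 2 / Real.sqrt (s u ^ 2 + t u ^ 2) ^ 3 * s' -
        s u * t u / Real.sqrt (s u ^ 2 + t u ^ 2) ^ 3 * t') u := by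
  have hne : Real.sqrt (s u ^ 2 + t u ^ 2) ≠ 0 := (Real.sqrt_pos.2 hr).ne'
  have h1 : HasDerivAt (fun v => 1 + s v / Real.sqrt (s v ^ 2 + t v ^ 2))
      ((s' * Real.sqrt (s u ^ 2 + t u ^ 2) -
        s u * (((2 : ℕ) * s u ^ (2 - 1) * s' + (2 : ℕ) * t u ^ (2 - 1) * t') /
          (2 * Real.sqrt (s u ^ 2 + t u ^ 2)))) / Real.sqrt (s u ^ 2 + t u ^ 2) ^ 2) u :=
    (hs.div (((hs.pow 2).add (ht.pow 2)).sqrt hr.ne') hne).const_add 1
  refine h1.congr_deriv ?_
  have hsq : Real.sqrt (s u ^ 2 + t u ^ 2) ^ 2 = s u ^ 2 + t u ^ 2 := Real.sq_sqrt hr.le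
  generalize Real.sqrt (s u ^ 2 + t u ^ 2) = r at *
  push_cast
  field_simp
  rw [hsq]
  ring

/-- derivative of `1 + t/r` -/
theorem hasDerivAt_q {s t : ℝ → ℝ} {s' t' u : ℝ} (hs : HasDerivAt s s' u) (ht : HasDerivAt t t' u)
    (hr : 0 < s u ^ 2 + t u ^ 2) :
    HasDerivAt (fun v => 1 + t v / Real.sqrt (s v ^ 2 + t v ^ 2))
      (s u ^ 2 / Real.sqrt (s u ^ 2 + t u ^ 2) ^ 3 * t' -
        s u * t u / Real.sqrt (s u ^ 2 + t u ^ 2) ^ 3 * s') u := by
  have h := hasDerivAt_p ht hs (by rw [add_comm]; exact hr)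
  have e : ∀ v, Real.sqrt (t v ^ 2 + s v ^ 2) = Real.sqrt (s v ^ 2 + t v ^ 2) := fun v => by
    rw [add_comm]
  simp only [e] at h
  refine h.congr_deriv ?_
  ring

/-- `f` has partial derivative `f'` in direction `k` at `x`. -/
def HasPd {n : ℕ} (k : Fin n) (f : Vec n → ℝ) (f' : ℝ) (x : Vec n) : Prop :=
  HasDerivAt (fun s : ℝ => f (Function.update x k s)) f' (x k)

theorem HasPd.pd {n : ℕ} {k : Fin n} {f : Vec n → ℝ} {f' : ℝ} {x : Vec n} (h : HasPd k f f' x) :
    pd k f x = f' := HasDerivAt.deriv h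

theorem HasPd.P {n : ℕ} {k : Fin n} {S T : Vec n → ℝ} {s' t' : ℝ} {x : Vec n}
    (hs : HasPd k S s' x) (ht : HasPd k T t' x) (hr : 0 < S x ^ 2 + T x ^ 2) :
    HasPd k (fun z => S z + T z + Real.sqrt (S z ^ 2 + T z ^ 2))
      ((1 + S x / Real.sqrt (S x ^ 2 + T x ^ 2)) * s' +
        (1 + T x / Real.sqrt (S x ^ 2 + T x ^ 2)) * t') x := by
  have e : Function.update x k (x k) = x := Function.update_eq_self k x
  have h := hasDerivAt_P hs ht (by simpa only [e] using hr)
  simp only [e] at h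
  exact h

theorem HasPd.p {n : ℕ} {k : Fin n} {S T : Vec n → ℝ} {s' t' : ℝ} {x : Vec n}
    (hs : HasPd k S s' x) (ht : HasPd k T t' x) (hr : 0 < S x ^ 2 + T x ^ 2) :
    HasPd k (fun z => 1 + S z / Real.sqrt (S z ^ 2 + T z ^ 2))
      (T x ^ 2 / Real.sqrt (S x ^ 2 + T x ^ 2) ^ 3 * s' -
        S x * T x / Real.sqrt (S x ^ 2 + T x ^ 2) ^ 3 * t') x := by
  have e : Function.update x k (x k) = x := Function.update_eq_self k x
  have h := hasDerivAt_p hs ht (by simpa only [e] using hr)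
  simp only [e] at h
  exact h

theorem HasPd.q {n : ℕ} {k : Fin n} {S T : Vec n → ℝ} {s' t' : ℝ} {x : Vec n}
    (hs : HasPd k S s' x) (ht : HasPd k T t' x) (hr : 0 < S x ^ 2 + T x ^ 2) :
    HasPd k (fun z => 1 + T z / Real.sqrt (S z ^ 2 + T z ^ 2))
      (S x ^ 2 / Real.sqrt (S x ^ 2 + T x ^ 2) ^ 3 * t' -
        S x * T x / Real.sqrt (S x ^ 2 + T x ^ 2) ^ 3 * s') x := by
  have e : Function.update x k (x k) = x := Function.update_eq_self k x
  have h := hasDerivAt_q hs ht (by simpa only [e] using hr)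
  simp only [e] at h
  exact h

theorem HasPd.mul {n : ℕ} {k : Fin n} {S T : Vec n → ℝ} {s' t' : ℝ} {x : Vec n}
    (hs : HasPd k S s' x) (ht : HasPd k T t' x) :
    HasPd k (fun z => S z * T z) (s' * T x + S x * t') x := by
  have e : Function.update x k (x k) = x := Function.update_eq_self k x
  have h : HasDerivAt (fun s : ℝ => S (Function.update x k s) * T (Function.update x k s))
    (s' * T (Function.update x k (x k)) + S (Function.update x k (x k)) * t') (x k) :=
    HasDerivAt.mul hs ht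
  rw [e] at h
  exact h

theorem HasPd.congr' {n : ℕ} {k : Fin n} {f g : Vec n → ℝ} {f' : ℝ} {x : Vec n}
    (h : HasPd k f f' x) (hfg : ∀ z, g z = f z) : HasPd k g f' x := by
  have : g = f := funext hfg
  rw [this]; exact h

theorem HasPd.congr_deriv {n : ℕ} {k : Fin n} {f : Vec n → ℝ} {f' f'' : ℝ} {x : Vec n}
    (h : HasPd k f f' x) (hff : f' = f'') : HasPd k f f'' x := hff ▸ h

theorem hasPd_const {n : ℕ} {k : Fin n} {c : ℝ} {x : Vec n} : HasPd k (fun _ => c) 0 x :=
  hasDerivAt_const _ _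

theorem hasPd_es_y (k : Fin 4) (x y : Vec 4) :
    HasPd k (fun w => es x w) (2 * ![Real.exp (2 * x 1) * y 0, y 1, 0, 0] k) y := by
  unfold HasPd es
  fin_cases k
  · have h := (((hasDerivAt_id (y 0)).pow 2).const_mul (Real.exp (2 * x 1)))
    simp [Function.update]
    refine HasDerivAt.congr_deriv (f := fun s => Real.exp (2 * x 1) * s ^ 2) h ?_
    simp; ring
  · have h := ((hasDerivAt_id (y 1)).pow 2)
    simp [Function.update]
    refine HasDerivAt.congr_deriv (f := fun s => s ^ 2) h ?_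
    simp
  · simp [Function.update]
    exact hasDerivAt_const _ _
  · simp [Function.update]
    exact hasDerivAt_const _ _

theorem hasPd_et_y (k : Fin 4) (x y : Vec 4) :
    HasPd k (fun w => et x w) (2 * ![0, 0, Real.exp (2 * x 3) * y 2, y 3] k) y := by
  unfold HasPd et
  fin_cases k
  · simp [Function.update]
    exact hasDerivAt_const _ _
  · simp [Function.update]
    exact hasDerivAt_const _ _
  · have h := (((hasDerivAt_id (y 2)).pow 2).const_mul (Real.exp (2 * x 3)))
    simp [Function.update]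
    refine HasDerivAt.congr_deriv (f := fun s => Real.exp (2 * x 3) * s ^ 2) h ?_
    simp; ring
  · have h := ((hasDerivAt_id (y 3)).pow 2)
    simp [Function.update]
    refine HasDerivAt.congr_deriv (f := fun s => s ^ 2) h ?_
    simp

theorem hasDerivAt_exp2 (u : ℝ) : HasDerivAt (fun s : ℝ => Real.exp (2 * s)) (2 * Real.exp (2 * u)) u := by
  have h := ((hasDerivAt_id u).const_mul 2).exp
  refine HasDerivAt.congr_deriv (f := fun s : ℝ => Real.exp (2 * s)) h ?_
  simp; ring

theorem hasPd_es_x (k : Fin 4) (x y : Vec 4) :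
    HasPd k (fun w => es w y) (2 * ![0, Real.exp (2 * x 1) * y 0 ^ 2, 0, 0] k) x := by
  unfold HasPd es
  fin_cases k
  · simp [Function.update]
    exact hasDerivAt_const _ _
  · have h := ((hasDerivAt_exp2 (x 1)).mul_const (y 0 ^ 2))
    simp [Function.update]
    refine HasDerivAt.congr_deriv (f := fun s => Real.exp (2 * s) * y 0 ^ 2) h ?_
    ring
  · simp [Function.update]
    exact hasDerivAt_const _ _
  · simp [Function.update]
    exact hasDerivAt_const _ _

theorem hasPd_et_x (k : Fin 4) (x y : Vec 4) :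
    HasPd k (fun w => et w y) (2 * ![0, 0, 0, Real.exp (2 * x 3) * y 2 ^ 2] k) x := by
  unfold HasPd et
  fin_cases k
  · simp [Function.update]
    exact hasDerivAt_const _ _
  · simp [Function.update]
    exact hasDerivAt_const _ _
  · simp [Function.update]
    exact hasDerivAt_const _ _
  · have h := ((hasDerivAt_exp2 (x 3)).mul_const (y 2 ^ 2))
    simp [Function.update]
    refine HasDerivAt.congr_deriv (f := fun s => Real.exp (2 * s) * y 2 ^ 2) h ?_
    ring

theorem hr_pos (x : Vec 4) {y : Vec 4} (hy : y ≠ 0) : 0 < es x y ^ 2 + et x y ^ 2 := by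
  have h := er_pos x hy
  rw [← er_sq]; positivity

/-- gradient of `F²` -/
theorem grad_eq (x : Vec 4) {y : Vec 4} (hy : y ≠ 0) (j : Fin 4) :
    HasPd j (fun w => FF x w ^ 2) (grad x y j) y := by
  have h := HasPd.P (hasPd_es_y j x y) (hasPd_et_y j x y) (hr_pos x hy)
  have h2 : HasPd j (fun w => FF x w ^ 2) _ y := h.congr' (fun z => FF_sq x z)
  refine h2.congr_deriv ?_
  fin_cases j <;> simp [grad, cp, cq, er] <;> ring

theorem gradx_eq (x : Vec 4) {y : Vec 4} (hy : y ≠ 0) (j : Fin 4) :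
    HasPd j (fun w => FF w y ^ 2) (2 * ![0, cp x y * (Real.exp (2 * x 1) * y 0 ^ 2), 0,
      cq x y * (Real.exp (2 * x 3) * y 2 ^ 2)] j) x := by
  have h := HasPd.P (hasPd_es_x j x y) (hasPd_et_x j x y) (hr_pos x hy)
  have h2 : HasPd j (fun w => FF w y ^ 2) _ x := h.congr' (fun z => FF_sq z y)
  refine h2.congr_deriv ?_
  fin_cases j <;> simp [cp, cq, er] <;> ring

theorem hasPd_cp_y (x : Vec 4) {y : Vec 4} (hy : y ≠ 0) (k : Fin 4) :
    HasPd k (fun z => cp x z) (ca x y * ![cov x y 0, cov x y 1, 0, 0] k +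
      cb x y * ![0, 0, cov x y 2, cov x y 3] k) y := by
  have h := HasPd.p (hasPd_es_y k x y) (hasPd_et_y k x y) (hr_pos x hy)
  refine HasPd.congr_deriv (f := fun z => cp x z) h ?_
  fin_cases k <;> simp [cov, ca, cb, er] <;> ring

theorem hasPd_cq_y (x : Vec 4) {y : Vec 4} (hy : y ≠ 0) (k : Fin 4) :
    HasPd k (fun z => cq x z) (cc x y * ![0, 0, cov x y 2, cov x y 3] k +
      cb x y * ![cov x y 0, cov x y 1, 0, 0] k) y := by
  have h := HasPd.q (hasPd_es_y k x y) (hasPd_et_y k x y) (hr_pos x hy)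
  refine HasPd.congr_deriv (f := fun z => cq x z) h ?_
  fin_cases k <;> simp [cov, cc, cb, er] <;> ring

theorem hasPd_cp_x (x : Vec 4) {y : Vec 4} (hy : y ≠ 0) (k : Fin 4) :
    HasPd k (fun z => cp z y) (ca x y * ![0, Real.exp (2 * x 1) * y 0 ^ 2, 0, 0] k +
      cb x y * ![0, 0, 0, Real.exp (2 * x 3) * y 2 ^ 2] k) x := by
  have h := HasPd.p (hasPd_es_x k x y) (hasPd_et_x k x y) (hr_pos x hy)
  refine HasPd.congr_deriv (f := fun z => cp z y) h ?_
  fin_cases k <;> simp [ca, cb, er] <;> ring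

theorem hasPd_cq_x (x : Vec 4) {y : Vec 4} (hy : y ≠ 0) (k : Fin 4) :
    HasPd k (fun z => cq z y) (cc x y * ![0, 0, 0, Real.exp (2 * x 3) * y 2 ^ 2] k +
      cb x y * ![0, Real.exp (2 * x 1) * y 0 ^ 2, 0, 0] k) x := by
  have h := HasPd.q (hasPd_es_x k x y) (hasPd_et_x k x y) (hr_pos x hy)
  refine HasPd.congr_deriv (f := fun z => cq z y) h ?_
  fin_cases k <;> simp [cc, cb, er] <;> ring

theorem hasPd_coord (k j : Fin 4) (c : ℝ) (y : Vec 4) :
    HasPd k (fun z => c * z j) (c * if k = j then 1 else 0) y := by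
  unfold HasPd
  by_cases h : k = j
  · subst h
    simp only [Function.update_self, if_true]
    exact (hasDerivAt_id (y k)).const_mul c
  · simp only [if_neg h, mul_zero]
    have : (fun s : ℝ => c * Function.update y k s j) = fun _ => c * y j := by
      funext s; rw [Function.update_of_ne (Ne.symm h)]
    rw [this]
    exact hasDerivAt_const _ _

theorem hasPd_exp (k j : Fin 4) (c : ℝ) (x : Vec 4) :
    HasPd k (fun z => Real.exp (2 * z j) * c) ((if k = j then 2 * Real.exp (2 * x j) else 0) * c) x := by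
  unfold HasPd
  by_cases h : k = j
  · subst h
    simp only [Function.update_self, if_true]
    exact (hasDerivAt_exp2 (x k)).mul_const c
  · simp only [if_neg h, zero_mul]
    have : (fun s : ℝ => Real.exp (2 * Function.update x k s j) * c) = fun _ => Real.exp (2 * x j) * c := by
      funext s; rw [Function.update_of_ne (Ne.symm h)]
    rw [this]
    exact hasDerivAt_const _ _

/-- second `y`-derivatives of `F²` -/
theorem hess_eq (x : Vec 4) {y : Vec 4} (hy : y ≠ 0) (i j : Fin 4) :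
    HasPd i (fun z => grad x z j) (2 * gM x y i j) y := by
  have hp := hasPd_cp_y x hy i
  have hq := hasPd_cq_y x hy i
  fin_cases j
  · have h := (hp.mul (hasPd_coord i 0 (2 * Real.exp (2 * x 1)) y)).congr'
      (g := fun z => grad x z 0) (fun z => by simp [grad]; ring)
    refine h.congr_deriv ?_
    fin_cases i <;> simp [gM, cov] <;> ring
  · have h := (hp.mul (hasPd_coord i 1 2 y)).congr'
      (g := fun z => grad x z 1) (fun z => by simp [grad]; ring)
    refine h.congr_deriv ?_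
    fin_cases i <;> simp [gM, cov] <;> ring
  · have h := (hq.mul (hasPd_coord i 2 (2 * Real.exp (2 * x 3)) y)).congr'
      (g := fun z => grad x z 2) (fun z => by simp [grad]; ring)
    refine h.congr_deriv ?_
    fin_cases i <;> simp [gM, cov] <;> ring
  · have h := (hq.mul (hasPd_coord i 3 2 y)).congr'
      (g := fun z => grad x z 3) (fun z => by simp [grad]; ring)
    refine h.congr_deriv ?_
    fin_cases i <;> simp [gM, cov] <;> ring

theorem fundMat_eq (x : Vec 4) {y : Vec 4} (hy : y ≠ 0) : fundMat FF x y = gM x y := by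
  ext i j
  unfold fundMat
  rw [Matrix.of_apply]
  have h1 : pd i (fun z => pd j (fun w => FF x w ^ 2) z) y = pd i (fun z => grad x z j) y :=
    pd_congr_ne hy (fun z hz => (grad_eq x hz j).pd)
  rw [h1, (hess_eq x hy i j).pd]
  ring

/-- mixed derivatives of `F²` -/
theorem mixed_eq (x : Vec 4) {y : Vec 4} (hy : y ≠ 0) (k l : Fin 4) :
    HasPd k (fun z => grad z y l)
      (![2 * (ca x y * ![0, Real.exp (2 * x 1) * y 0 ^ 2, 0, 0] k +
          cb x y * ![0, 0, 0, Real.exp (2 * x 3) * y 2 ^ 2] k) * (Real.exp (2 * x 1) * y 0) +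
          2 * cp x y * ((if k = 1 then 2 * Real.exp (2 * x 1) else 0) * y 0),
        2 * (ca x y * ![0, Real.exp (2 * x 1) * y 0 ^ 2, 0, 0] k +
          cb x y * ![0, 0, 0, Real.exp (2 * x 3) * y 2 ^ 2] k) * y 1,
        2 * (cc x y * ![0, 0, 0, Real.exp (2 * x 3) * y 2 ^ 2] k +
          cb x y * ![0, Real.exp (2 * x 1) * y 0 ^ 2, 0, 0] k) * (Real.exp (2 * x 3) * y 2) +
          2 * cq x y * ((if k = 3 then 2 * Real.exp (2 * x 3) else 0) * y 2),
        2 * (cc x y * ![0, 0, 0, Real.exp (2 * x 3) * y 2 ^ 2] k +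
          cb x y * ![0, Real.exp (2 * x 1) * y 0 ^ 2, 0, 0] k) * y 3] l) x := by
  have hp := hasPd_cp_x x hy k
  have hq := hasPd_cq_x x hy k
  fin_cases l
  · have h := (hp.mul (hasPd_exp k 1 (2 * y 0) x)).congr'
      (g := fun z => grad z y 0) (fun z => by simp [grad]; ring)
    refine h.congr_deriv ?_
    fin_cases k <;> simp <;> ring
  · have h := (hp.mul (hasPd_const (c := 2 * y 1))).congr'
      (g := fun z => grad z y 1) (fun z => by simp [grad]; ring)
    refine h.congr_deriv ?_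
    fin_cases k <;> simp <;> ring
  · have h := (hq.mul (hasPd_exp k 3 (2 * y 2) x)).congr'
      (g := fun z => grad z y 2) (fun z => by simp [grad]; ring)
    refine h.congr_deriv ?_
    fin_cases k <;> simp <;> ring
  · have h := (hq.mul (hasPd_const (c := 2 * y 3))).congr'
      (g := fun z => grad z y 3) (fun z => by simp [grad]; ring)
    refine h.congr_deriv ?_
    fin_cases k <;> simp <;> ring

theorem cp_ge (x : Vec 4) (y : Vec 4) : 1 ≤ cp x y := by
  have h0 := es_nonneg x y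
  have : 0 ≤ er x y := Real.sqrt_nonneg _
  unfold cp
  have : 0 ≤ es x y / er x y := by positivity
  linarith

theorem cq_ge (x : Vec 4) (y : Vec 4) : 1 ≤ cq x y := by
  have h0 := et_nonneg x y
  have : 0 ≤ er x y := Real.sqrt_nonneg _
  unfold cq
  have : 0 ≤ et x y / er x y := by positivity
  linarith

theorem quad_gM (x y v : Vec 4) : v ⬝ᵥ (gM x y).mulVec v =
    cp x y * es x v + cq x y * et x v +
    (ca x y * (cov x y 0 * v 0 + cov x y 1 * v 1) ^ 2 +
      2 * cb x y * (cov x y 0 * v 0 + cov x y 1 * v 1) * (cov x y 2 * v 2 + cov x y 3 * v 3) +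
      cc x y * (cov x y 2 * v 2 + cov x y 3 * v 3) ^ 2) := by
  simp only [gM, dotProduct, Matrix.mulVec, Fin.sum_univ_four, Matrix.of_apply, Matrix.cons_val_zero,
    Matrix.cons_val_one, Matrix.cons_val, es, et]
  ring

theorem abc_nonneg (x y : Vec 4) (A B : ℝ) :
    0 ≤ ca x y * A ^ 2 + 2 * cb x y * A * B + cc x y * B ^ 2 := by
  have hr : 0 ≤ er x y := Real.sqrt_nonneg _
  have : ca x y * A ^ 2 + 2 * cb x y * A * B + cc x y * B ^ 2 =
      2 * (et x y * A - es x y * B) ^ 2 / er x y ^ 3 := by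
    unfold ca cb cc
    ring
  rw [this]
  positivity

theorem gM_posDef (x : Vec 4) (y : Vec 4) : (gM x y).PosDef := by
  apply Matrix.PosDef.of_dotProduct_mulVec_pos
  · ext i j
    fin_cases i <;> fin_cases j <;> simp [gM, mul_comm]
  · intro v hv
    have : star v = v := by ext i; simp
    rw [this, quad_gM]
    have h1 := abc_nonneg x y (cov x y 0 * v 0 + cov x y 1 * v 1) (cov x y 2 * v 2 + cov x y 3 * v 3)
    have h2 := es_et_pos x hv
    have h3 := es_nonneg x v
    have h4 := et_nonneg x v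
    have h5 := cp_ge x y
    have h6 := cq_ge x y
    nlinarith [mul_nonneg (sub_nonneg.2 h5) h3, mul_nonneg (sub_nonneg.2 h6) h4]

/-- the spray of `FF` -/
theorem spray_eq (x : Vec 4) {y : Vec 4} (hy : y ≠ 0) : spray FF x y = GM x y := by
  have hdet : IsUnit (gM x y).det := by
    have := (gM_posDef x y).det_pos
    exact isUnit_iff_ne_zero.2 this.ne'
  have key : (gM x y).mulVec ((4 : ℝ) • GM x y) = (fun l =>
    (∑ k, y k * pd k (fun x' => pd l (fun w => FF x' w ^ 2) y) x) - pd l (fun x' => FF x' y ^ 2) x) := by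
    ext l
    have hm : ∀ k, pd k (fun x' => pd l (fun w => FF x' w ^ 2) y) x = pd k (fun x' => grad x' y l) x := by
      intro k
      congr 1
      funext x'
      exact (grad_eq x' hy l).pd
    simp only [hm, (mixed_eq x hy _ l).pd, (gradx_eq x hy l).pd]
    fin_cases l <;>
    simp [gM, GM, Matrix.mulVec, dotProduct, Fin.sum_univ_four, cov] <;> ring
  unfold spray
  rw [fundMat_eq x hy, ← key, Matrix.mulVec_mulVec, Matrix.nonsing_inv_mul _ hdet, Matrix.one_mulVec,
    smul_smul]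
  norm_num

end Pool.Agent.Helper56.Finsler
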